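import Mathlib
import Pool.Agent.U204.PN.Stm

set_option autoImplicit false

/-!
Project PN, package SLLN (helper187): from second moments to almost sure convergence.
-/

open MeasureTheory Filter Topology Finset
open scoped ENNReal

namespace Pool.Agent.U187.PN

open Pool.Agent.U204.PN

/-- interpolation between the `b`-th powers -/
theorem det {b : ℕ} (hb : 1 ≤ b) {S : ℕ → ℂ}
    (hS : ∀ m n : ℕ, m ≤ n → ‖S n - S m‖ ≤ (n : ℝ) - m)
    (h : Tendsto (fun j : ℕ => ‖S (j ^ b)‖ / ((j : ℝ) ^ b)) atTop (𝓝 0)) :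
    Tendsto (fun N : ℕ => S N / (N : ℂ)) atTop (𝓝 0) := by
  have hb0 : b ≠ 0 := by omega
  let r : ℕ → ℕ := fun N => Nat.findGreatest (fun j => j ^ b ≤ N) N
  have hr1 : ∀ N, (r N) ^ b ≤ N := fun N =>
    Nat.findGreatest_spec (P := fun j => j ^ b ≤ N) (Nat.zero_le N)
      (by simp only [zero_pow hb0]; exact Nat.zero_le N)
  have hr2 : ∀ N, N < (r N + 1) ^ b := by
    intro N
    by_contra hc
    rw [not_lt] at hc
    have h1 : r N + 1 ≤ N := (Nat.le_self_pow hb0 _).trans hc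
    have h2 : r N + 1 ≤ r N := Nat.le_findGreatest h1 hc
    omega
  have hr3 : Tendsto r atTop atTop := by
    refine tendsto_atTop.2 fun K => ?_
    filter_upwards [eventually_ge_atTop (max K (K ^ b))] with N hN
    exact Nat.le_findGreatest ((le_max_left _ _).trans hN) ((le_max_right _ _).trans hN)
  have h2 : Tendsto (fun j : ℕ => ((j : ℝ) + 1) ^ b / (j : ℝ) ^ b - 1) atTop (𝓝 0) := by
    have h3 : Tendsto (fun j : ℕ => (1 + 1 / (j : ℝ)) ^ b - 1) atTop (𝓝 ((1 + 0) ^ b - 1)) :=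
      ((tendsto_const_nhds.add tendsto_one_div_atTop_nhds_zero_nat).pow b).sub_const 1
    rw [add_zero, one_pow, sub_self] at h3
    refine h3.congr' ?_
    filter_upwards [eventually_ge_atTop 1] with j hj
    have hj0 : (j : ℝ) ≠ 0 := by
      have : (0 : ℝ) < j := by exact_mod_cast hj
      exact this.ne'
    rw [← div_pow, add_div, div_self hj0]
  have h4 : Tendsto (fun N : ℕ => ‖S ((r N) ^ b)‖ / ((r N : ℕ) : ℝ) ^ b +
      ((((r N : ℕ) : ℝ) + 1) ^ b / ((r N : ℕ) : ℝ) ^ b - 1)) atTop (𝓝 0) := by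
    have := (h.add h2).comp hr3
    rw [add_zero] at this
    exact this
  refine squeeze_zero_norm' ?_ h4
  filter_upwards [hr3.eventually_ge_atTop 1] with N hN
  obtain ⟨j, hj⟩ : ∃ j, j = r N := ⟨_, rfl⟩
  rw [← hj] at hN ⊢
  have hj1 : j ^ b ≤ N := by rw [hj]; exact hr1 N
  have hj2 : N < (j + 1) ^ b := by rw [hj]; exact hr2 N
  have hjpos : (0 : ℝ) < (j : ℝ) ^ b := by
    have : (0 : ℝ) < j := by exact_mod_cast hN
    positivity
  have hj1' : (j : ℝ) ^ b ≤ N := by exact_mod_cast hj1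
  have hj2' : (N : ℝ) ≤ ((j : ℝ) + 1) ^ b := by exact_mod_cast hj2.le
  have hNpos : (0 : ℝ) < N := lt_of_lt_of_le hjpos hj1'
  rw [norm_div, Complex.norm_natCast]
  have h5 : ‖S N‖ ≤ ‖S (j ^ b)‖ + ((N : ℝ) - (j : ℝ) ^ b) := by
    have h6 := hS (j ^ b) N hj1
    have h7 : ‖S N‖ ≤ ‖S (j ^ b)‖ + ‖S N - S (j ^ b)‖ := by
      have := norm_add_le (S (j ^ b)) (S N - S (j ^ b))
      rwa [add_sub_cancel] at this
    push_cast at h6
    linarith
  calc ‖S N‖ / N ≤ (‖S (j ^ b)‖ + ((N : ℝ) - (j : ℝ) ^ b)) / N := by gcongr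
    _ ≤ (‖S (j ^ b)‖ + ((N : ℝ) - (j : ℝ) ^ b)) / (j : ℝ) ^ b := by
        apply div_le_div_of_nonneg_left _ hjpos hj1'
        have := norm_nonneg (S (j ^ b))
        linarith
    _ ≤ (‖S (j ^ b)‖ + (((j : ℝ) + 1) ^ b - (j : ℝ) ^ b)) / (j : ℝ) ^ b := by gcongr
    _ = ‖S (j ^ b)‖ / (j : ℝ) ^ b + (((j : ℝ) + 1) ^ b / (j : ℝ) ^ b - 1) := by
        rw [add_div, sub_div, div_self hjpos.ne']

/-- SLLN: from second moments to almost sure convergence -/
theorem t_SLLN : S_SLLN := by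
  intro P _ Y hY hY1 C t ht hC
  obtain ⟨b, hb⟩ := exists_nat_gt (1 / (2 - t))
  have h2t : 0 < 2 - t := by linarith
  have hbt : 1 < (b : ℝ) * (2 - t) := by
    rw [div_lt_iff₀ h2t] at hb
    exact hb
  have hb1 : 1 ≤ b := by
    have h1 : 0 < 1 / (2 - t) := by positivity
    have h2 : (0 : ℝ) < b := h1.trans hb
    exact_mod_cast h2
  obtain ⟨S, hS⟩ : ∃ S : ℕ → (ℕ → Bool) → ℂ, ∀ N ω, S N ω = ∑ n ∈ range N, Y n ω :=
    ⟨fun N ω => ∑ n ∈ range N, Y n ω, fun _ _ => rfl⟩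
  have hSm : ∀ N, Measurable (S N) := by
    intro N
    have : S N = fun ω => ∑ n ∈ range N, Y n ω := by
      funext ω
      exact hS N ω
    rw [this]
    exact Finset.measurable_fun_sum _ fun n _ => hY n
  have hSb : ∀ N ω, ‖S N ω‖ ≤ N := by
    intro N ω
    rw [hS]
    refine (norm_sum_le _ _).trans ?_
    refine (Finset.sum_le_sum fun n _ => hY1 n ω).trans ?_
    simp
  have hdiff : ∀ ω, ∀ m n : ℕ, m ≤ n → ‖S n ω - S m ω‖ ≤ (n : ℝ) - m := by
    intro ω m n hmn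
    rw [hS, hS, ← Finset.sum_range_add_sum_Ico _ hmn, add_sub_cancel_left]
    refine (norm_sum_le _ _).trans ?_
    refine (Finset.sum_le_sum fun n _ => hY1 n ω).trans ?_
    rw [Finset.sum_const, Nat.card_Ico, nsmul_eq_mul, mul_one, Nat.cast_sub hmn]
  -- the squares along the powers
  obtain ⟨x, hx⟩ : ∃ x : ℕ → (ℕ → Bool) → ℝ, ∀ j ω,
      x j ω = ‖S ((j + 1) ^ b) ω‖ / ((((j + 1 : ℕ) : ℝ)) ^ b) :=
    ⟨fun j ω => ‖S ((j + 1) ^ b) ω‖ / ((((j + 1 : ℕ) : ℝ)) ^ b), fun _ _ => rfl⟩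
  have hx0 : ∀ j ω, 0 ≤ x j ω := fun j ω => by rw [hx]; positivity
  have hxm : ∀ j, Measurable (x j) := by
    intro j
    have : x j = fun ω => ‖S ((j + 1) ^ b) ω‖ / ((((j + 1 : ℕ) : ℝ)) ^ b) := by
      funext ω
      exact hx j ω
    rw [this]
    exact (hSm _).norm.div_const _
  have hxint : ∀ j, ∫⁻ ω, ENNReal.ofReal (x j ω ^ 2) ∂P ≤
      ENNReal.ofReal (|C| * (((j + 1 : ℕ) : ℝ)) ^ (-((b : ℝ) * (2 - t)))) := by
    intro j
    have hj0 : (0 : ℝ) < ((j + 1 : ℕ) : ℝ) := by positivity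
    have hN1 : 1 ≤ (j + 1) ^ b := Nat.one_le_pow _ _ (Nat.succ_pos j)
    have h1 := hC ((j + 1) ^ b) hN1
    simp only [← hS] at h1
    have hbd : ∀ ω, ‖x j ω ^ 2‖ ≤ 1 := by
      intro ω
      have h2 : x j ω ≤ 1 := by
        rw [hx, div_le_one (by positivity)]
        have := hSb ((j + 1) ^ b) ω
        push_cast at this ⊢
        exact this
      rw [Real.norm_eq_abs, abs_of_nonneg (by positivity)]
      exact pow_le_one₀ (hx0 j ω) h2
    have hi : Integrable (fun ω => x j ω ^ 2) P :=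
      Integrable.of_bound ((hxm j).pow_const 2).aestronglyMeasurable 1
        (Eventually.of_forall hbd)
    rw [← ofReal_integral_eq_lintegral_ofReal hi (Eventually.of_forall fun ω => by positivity)]
    refine ENNReal.ofReal_le_ofReal ?_
    have h3 : ∀ ω, x j ω ^ 2 = ‖S ((j + 1) ^ b) ω‖ ^ 2 / (((((j + 1 : ℕ) : ℝ)) ^ b)) ^ 2 := by
      intro ω
      rw [hx, div_pow]
    simp only [h3]
    rw [integral_div, div_le_iff₀ (by positivity)]
    refine h1.trans ?_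
    have h4 : (((j + 1) ^ b : ℕ) : ℝ) ^ t =
        (((j + 1 : ℕ) : ℝ)) ^ (-((b : ℝ) * (2 - t))) * (((((j + 1 : ℕ) : ℝ)) ^ b)) ^ 2 := by
      rw [Nat.cast_pow, ← Real.rpow_natCast (((j + 1 : ℕ) : ℝ)) b, ← Real.rpow_mul hj0.le,
        ← Real.rpow_natCast _ 2, ← Real.rpow_mul hj0.le, ← Real.rpow_add hj0]
      congr 1
      push_cast
      ring
    rw [h4, mul_assoc]
    refine mul_le_mul_of_nonneg_right (le_abs_self C) (by positivity)
  have hsum : Summable fun j : ℕ => |C| * (((j + 1 : ℕ) : ℝ)) ^ (-((b : ℝ) * (2 - t))) := by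
    refine Summable.mul_left _ ?_
    exact (summable_nat_add_iff (f := fun n : ℕ => (n : ℝ) ^ (-((b : ℝ) * (2 - t)))) 1).2
      (Real.summable_nat_rpow.2 (by linarith))
  have hfin : ∫⁻ ω, ∑' j, ENNReal.ofReal (x j ω ^ 2) ∂P ≠ ∞ := by
    rw [lintegral_tsum fun j => ((hxm j).pow_const 2).ennreal_ofReal.aemeasurable]
    exact ne_top_of_le_ne_top hsum.tsum_ofReal_ne_top (ENNReal.tsum_le_tsum hxint)
  have hae := ae_lt_top (Measurable.ennreal_tsum fun j => ((hxm j).pow_const 2).ennreal_ofReal) hfin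
  filter_upwards [hae] with ω hω
  have h1 := ENNReal.tendsto_atTop_zero_of_tsum_ne_top hω.ne
  have h2 : Tendsto (fun j => x j ω ^ 2) atTop (𝓝 0) := by
    have h3 := (ENNReal.tendsto_toReal ENNReal.zero_ne_top).comp h1
    refine h3.congr fun j => ?_
    simp only [Function.comp_apply]
    exact ENNReal.toReal_ofReal (by positivity)
  have h3 : Tendsto (fun j => x j ω) atTop (𝓝 0) := by
    have h4 := (Real.continuous_sqrt.tendsto 0).comp h2
    rw [Real.sqrt_zero] at h4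
    refine h4.congr fun j => ?_
    simp only [Function.comp_apply]
    exact Real.sqrt_sq (hx0 j ω)
  have h4 : Tendsto (fun j : ℕ => ‖S (j ^ b) ω‖ / ((j : ℝ) ^ b)) atTop (𝓝 0) := by
    rw [← tendsto_add_atTop_iff_nat 1]
    refine h3.congr fun j => ?_
    rw [hx]
  have h5 := det hb1 (hdiff ω) h4
  simpa only [hS] using h5

end Pool.Agent.U187.PN
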